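import Pool.Agent.V8H67.QR.Real2

set_option autoImplicit false

/-!
A group with cubic divergence whose QR-poset has infinite height.

`G = ⟨a, b, c, d | a b = b a, c a = b c, d a = c d⟩`. With the vertices `g` of the Cayley graph written
as `g⁻¹` (so that edges join `g` and `s g`), the rays `n ↦ a^n d^k`, `k = 0, 1, 2, ...`, form an infinite
strictly increasing chain: from `a^n d^k` one passes to `d a^n d^k = c^n d^{k+1}`, and then one can spiral
out exponentially to the line `a^m d^{k+1}`; in the other direction the bottlenecks along the `c`-line,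
which has quadratic divergence in `⟨a, b, c⟩`, forbid it.

The group, the Cayley graphs, the divergence and the quasi-redirecting relation are defined in
`Pool.Agent.V8H67.QR.Defs`, the QR-poset in `Pool.Agent.V8H67.QR.Height`.

Author: helper67.
-/

namespace Pool.Agent.Results.MP_d59f30_al.InfiniteHeight

open Pool.Agent.V8H67.QR
open scoped NNReal ENNReal

/-- The divergence of the graph `X` is polynomial of degree `d`: `Div_γ(n, δ) ≍ n ^ d` for all `γ ≥ 2`
and all `0 < δ ≤ 1/2`. -/
def PolyDivergence (X : Type) [MetricSpace X] (d : ℕ) : Prop :=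
  ∀ γ δ : ℝ, 2 ≤ γ → 0 < δ → δ ≤ 1 / 2 →
    Dom (Dv X γ δ) (fun n => (n : ℝ≥0∞) ^ d) ∧ Dom (fun n => (n : ℝ≥0∞) ^ d) (Dv X γ δ)

/-- The statement asked for in Q1: for every finitely generated group `G` with Cayley graph `X` and
every `d ≥ 1`, if the divergence is polynomial of degree `d`, then the QR-poset has height `d`. -/
def Question : Prop :=
  ∀ (G : Type) [Group G] (S : Set G), S.Finite → Subgroup.closure S = ⊤ →
    ∀ (X : Type) [MetricSpace X] (ι : G → X), IsCayleyGraph S ι →
      ∀ d : ℕ, 1 ≤ d → PolyDivergence X d → height (QRPoset X) = d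

theorem near {X : Type} [MetricSpace X] {ι : G3 → X} (h : IsCayleyGraph S3 ι) (x : X) :
    ∃ g : G3, dist (ι g⁻¹) x ≤ 1 := by
  obtain ⟨g, s, -, hs⟩ := h.2.1 x
  refine ⟨g⁻¹, ?_⟩
  rw [inv_inv]
  have := dist_nonneg (x := x) (y := ι (g * s))
  linarith

theorem dist_inv {X : Type} [MetricSpace X] {ι : G3 → X} (h : IsCayleyGraph S3 ι) (g k : G3) :
    dist (ι g⁻¹) (ι k⁻¹) = nm (g * k⁻¹) := by
  rw [h.1, inv_inv]; rfl

theorem one_notMem : (1 : G3) ∉ S3 := by
  rintro (h | h | h | h)
  · have := congrArg tot h; simp at this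
  · have := congrArg tot h; simp at this
  · have := congrArg tot h; simp at this
  · have := congrArg lw h; simp at this

theorem main {X : Type} [MetricSpace X] {ι : G3 → X} (h : IsCayleyGraph S3 ι) :
    PolyDivergence X 3 ∧ height (QRPoset X) = ⊤ := by
  refine ⟨fun γ δ hγ hδ hδ' => ⟨?_, ?_⟩, height_X (dist_inv h) (near h)⟩
  · exact div_upper (dist_inv h) (near h) h.2.2 hγ hδ'
  · exact div_lower (dist_inv h) (near h) hγ hδ hδ'

/-- The answer to Q1 is negative. The group `G = ⟨a, b, c, d | a b = b a, c a = b c, d a = c d⟩` has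
cubic divergence, and its QR-poset has infinite height. Explicitly: `G` is generated by
`S = {a, b, c, d}`; the Cayley graph of `G` with respect to `S` exists; and if `X` is the Cayley graph,
then `Div_γ(n, δ) ≍ n³` for all `γ ≥ 2` and `0 < δ ≤ 1/2`, and the height of the QR-poset `P(X)`
is `∞`. -/
theorem result :
    ¬ Question ∧ (S3.Finite ∧ Subgroup.closure S3 = ⊤) ∧
    (∃ (X : Type) (_ : MetricSpace X) (ι : G3 → X), IsCayleyGraph S3 ι) ∧
    ∀ (X : Type) [MetricSpace X] (ι : G3 → X), IsCayleyGraph S3 ι →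
      PolyDivergence X 3 ∧ height (QRPoset X) = ⊤ := by
  have hfin : S3.Finite := by
    unfold S3
    exact Set.toFinite _
  have hex : ∃ (X : Type) (_ : MetricSpace X) (ι : G3 → X), IsCayleyGraph S3 ι :=
    exists_cayleyGraph closure_S3 one_notMem ⟨a3, a3_mem⟩
  refine ⟨?_, ⟨hfin, closure_S3⟩, hex, fun X _ ι h => main h⟩
  intro hQ
  obtain ⟨X, _, ι, h⟩ := hex
  have h1 := hQ G3 S3 hfin closure_S3 X ι h 3 (by norm_num) (main h).1
  rw [(main h).2] at h1
  exact absurd h1 (ENat.top_ne_natCast 3)

end Pool.Agent.Results.MP_d59f30_al.InfiniteHeight
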